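import Mathlib

/-! Symplectomorphisms of `ℝ^{2n} = ℂ^n` and circle actions. -/

namespace Pool.Agent.MP_630a92_gt

open scoped ContDiff

variable {n : ℕ}

/-- The standard symplectic form `Σ dx_k ∧ dy_k` on `ℂ^n`, where `z_k = x_k + i y_k`. -/
def omega0 (u v : Fin n → ℂ) : ℝ := ∑ k, ((u k).re * (v k).im - (u k).im * (v k).re)

/-- Symplectomorphisms: smooth maps with a smooth two-sided inverse whose derivative preserves
the standard form. -/
def IsSymp (φ : (Fin n → ℂ) → Fin n → ℂ) : Prop :=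
  ContDiff ℝ ∞ φ ∧
    (∃ ψ, ContDiff ℝ ∞ ψ ∧ Function.LeftInverse ψ φ ∧ Function.RightInverse ψ φ) ∧
    ∀ z u v, omega0 (fderiv ℝ φ z u) (fderiv ℝ φ z v) = omega0 u v

/-- Rotation of the `j`-th complex coordinate by the angle `θ`. -/
noncomputable def rot (j : Fin n) (θ : ℝ) (z : Fin n → ℂ) : Fin n → ℂ :=
  Function.update z j (Complex.exp (θ * Complex.I) * z j)

/-- For a bijection `χ`: the map `φ` commutes with the circle action `χ⁻¹ ∘ rot j θ ∘ χ`. -/
def Commutes (χ : (Fin n → ℂ) → Fin n → ℂ) (j : Fin n) (φ : (Fin n → ℂ) → Fin n → ℂ) : Prop :=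
  ∀ θ z w, χ w = rot j θ (χ z) → χ (φ w) = rot j θ (χ (φ z))

end Pool.Agent.MP_630a92_gt
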