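import Pool.Agent.MP_630a92_gt.Symp
import Pool.Agent.MP_630a92_gt.Defs

/-! Contracting families of circle-equivariant compactly supported symplectomorphisms. -/

namespace Pool.Agent.MP_630a92_gt

open Set Filter Topology Complex Function
open scoped ContDiff

section
variable {E F G : Type} [NormedAddCommGroup E] [NormedSpace ℝ E] [NormedAddCommGroup F]
  [NormedSpace ℝ F] [NormedAddCommGroup G] [NormedSpace ℝ G] {a : E → E → ℝ} {b : F → F → ℝ}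
  {c : G → G → ℝ}

/-- Diffeomorphisms pulling one form back to another. -/
def Sy (a : E → E → ℝ) (b : F → F → ℝ) (f : E → F) : Prop :=
  ContDiff ℝ ∞ f ∧ (∃ ψ, ContDiff ℝ ∞ ψ ∧ LeftInverse ψ f ∧ RightInverse ψ f) ∧
    ∀ z u v, b (fderiv ℝ f z u) (fderiv ℝ f z v) = a u v

theorem Sy.comp {f : E → F} {g : F → G} (hg : Sy b c g) (hf : Sy a b f) : Sy a c (g ∘ f) := by
  obtain ⟨f1, ⟨ψ, f2, f3, f4⟩, f5⟩ := hf
  obtain ⟨g1, ⟨χ, g2, g3, g4⟩, g5⟩ := hg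
  refine ⟨g1.comp f1, ⟨ψ ∘ χ, f2.comp g2, g3.comp f3, g4.comp f4⟩, fun z u v => ?_⟩
  rw [fderiv_comp z (g1.differentiable (by simp) _) (f1.differentiable (by simp) _)]
  exact (g5 _ _ _).trans (f5 _ _ _)

theorem Sy.inv {f : E → F} (hf : Sy a b f) :
    ∃ ψ, Sy b a ψ ∧ LeftInverse ψ f ∧ RightInverse ψ f := by
  obtain ⟨f1, ⟨ψ, f2, f3, f4⟩, f5⟩ := hf
  refine ⟨ψ, ⟨f2, ⟨f, f1, f4, f3⟩, fun z u v => ?_⟩, f3, f4⟩
  have h := fderiv_comp z (f1.differentiable (by simp) (ψ z)) (f2.differentiable (by simp) z)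
  rw [f4.comp_eq_id, fderiv_id] at h
  rw [← f5 (ψ z)]
  exact congrArg₂ b congr($h.symm u) congr($h.symm v)

end

theorem core {W P : Type} [NormedAddCommGroup W] [NormedSpace ℝ W] [CompleteSpace W]
    [NormedAddCommGroup P] [NormedSpace ℝ P] {B : W → W → ℝ} (hB : ∀ v, B 0 v = 0)
    (hB' : Continuous (uncurry B)) {f : P → ℂ × W → ℂ × W}
    (hf : ContDiff ℝ ∞ fun q : P × ℂ × W => f q.1 q.2) (h1 : ∀ p, Sy (om B) (om B) (f p))
    (h2 : ∀ p, Eqv (f p)) {R : ℝ} (hR : 0 ≤ R) (h3 : ∀ p z, R < ‖z‖ → f p z = z) :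
    ∃ Φ : ℝ → P → ℂ × W → ℂ × W, (ContDiff ℝ ∞ fun q : ℝ × P × ℂ × W => Φ q.1 q.2.1 q.2.2) ∧
      (∀ p, Φ 0 p = id) ∧ Φ 1 = f ∧ (∀ t p, Sy (om B) (om B) (Φ t p) ∧ Eqv (Φ t p)) ∧
      (∀ t p, f p = id → Φ t p = id) ∧ ∀ t p z, R < ‖z‖ → Φ t p z = z := by
  have hn : ∀ p, Nrm (f p) := fun p => nrm_of hB ((h1 p).1.differentiable (by simp)) (h2 p)
    (h1 p).2.2 (h3 p (((R + 1 : ℝ) : ℂ), 0) (by
      rw [Prod.norm_def, norm_real, Real.norm_of_nonneg (by linarith)]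
      exact lt_max_of_lt_left (by linarith)))
  have h0 : ∀ t : ℝ, 0 ≤ ((R + 1) * (1 - t)) ^ 2 := fun t => sq_nonneg _
  have hs : ∀ {g : ℂ × W → ℂ × W}, ContDiff ℝ ∞ g → Eqv g → ∀ {s}, 0 ≤ s →
      ContDiff ℝ ∞ (sh g s) := fun hg he _ hs =>
    sh_smooth (P := ℝ) (f := fun _ => _) (hg.comp contDiff_snd) (fun _ => he) contDiff_const
      (fun _ => hs) (contDiff_const (c := 0)) contDiff_id
  refine ⟨fun t p => sh (f p) (((R + 1) * (1 - t)) ^ 2),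
    sh_smooth hf h2 (τ := fun q : ℝ × P × ℂ × W => ((R + 1) * (1 - q.1)) ^ 2) (by fun_prop)
      (fun q => h0 q.1) contDiff_snd.fst contDiff_snd.snd,
    fun p => funext fun z => sh_id (h0 0) (h3 _ _ ?_),
    funext fun p => by simpa using sh_zero (h2 p) (hn p), fun t p => ⟨?_, sh_eqv _ _⟩,
    fun t p e => funext fun z => sh_id (h0 t) (by rw [e]; rfl),
    fun t p z hz => sh_id (h0 t) (h3 _ _ (hz.trans_le ?_))⟩
  · rw [Prod.norm_def, norm_rho]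
    exact lt_max_of_lt_left (Real.lt_sqrt_of_sq_lt (by nlinarith [normSq_nonneg z.1]))
  · obtain ⟨f1, ⟨ψ, f2, f3, f4⟩, f5⟩ := h1 p
    have e1 : Eqv ψ := fun c hc a w => by
      rw [← f3 (c * (ψ (a, w)).1, (ψ (a, w)).2), h2 p c hc, f4]
    have e2 : Nrm ψ := fun z => by rw [← hn p, f4]
    exact ⟨hs f1 (h2 p) (h0 t), ⟨_, hs f2 e1 (h0 t), sh_inv (h0 t) f3 e1 (hn p),
      sh_inv (h0 t) f4 (h2 p) e2⟩, sh_symp hB' (h0 t) (h2 p) (hn p) (f1.differentiable (by simp))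
        f5 (hs f1 (h2 p) (h0 t))⟩
  · rw [Prod.norm_def, Prod.norm_def, norm_rho]
    exact max_le_max (norm_le_rho (h0 t) _) le_rfl

/-- Splitting off the `j`-th coordinate. -/
noncomputable def spl {n : ℕ} (j : Fin n) : (Fin n → ℂ) ≃L[ℝ] ℂ × ({k // k ≠ j} → ℂ) :=
  LinearEquiv.toContinuousLinearEquiv
    { Equiv.piSplitAt j fun _ => ℂ with
      map_add' := fun _ _ => rfl
      map_smul' := fun _ _ => rfl }

theorem main {n : ℕ} (j : Fin n) {χ : (Fin n → ℂ) → Fin n → ℂ} (hχ : IsSymp χ) {P : Type}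
    [NormedAddCommGroup P] [NormedSpace ℝ P] {φ : P → (Fin n → ℂ) → Fin n → ℂ}
    (hφ : ContDiff ℝ ∞ fun q : P × (Fin n → ℂ) => φ q.1 q.2)
    (h1 : ∀ p, IsSymp (φ p) ∧ Commutes χ j (φ p)) {K : Set (Fin n → ℂ)} (hK : IsCompact K)
    (h2 : ∀ p, ∀ z ∉ K, φ p z = z) : ∃ Φ : ℝ → P → (Fin n → ℂ) → Fin n → ℂ,
      (ContDiff ℝ ∞ fun q : ℝ × P × (Fin n → ℂ) => Φ q.1 q.2.1 q.2.2) ∧
      (∀ p, Φ 0 p = id) ∧ Φ 1 = φ ∧ (∀ t p, IsSymp (Φ t p) ∧ Commutes χ j (Φ t p)) ∧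
      (∀ t p, φ p = id → Φ t p = id) ∧
      ∃ K', IsCompact K' ∧ ∀ t p, ∀ z ∉ K', Φ t p z = z := by
  let B : ({k // k ≠ j} → ℂ) → ({k // k ≠ j} → ℂ) → ℝ := fun u v =>
    ∑ k, ((u k).re * (v k).im - (u k).im * (v k).re)
  have hL : Sy omega0 (om B) (spl j) := ⟨(spl j).contDiff, ⟨_, (spl j).symm.contDiff,
    (spl j).symm_apply_apply, (spl j).apply_symm_apply⟩, fun z u v => by
      rw [ContinuousLinearEquiv.fderiv, omega0, Fintype.sum_eq_add_sum_subtype_ne _ j]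
      rfl⟩
  have hr : ∀ θ x, spl j (rot j θ x) = (exp (θ * I) * (spl j x).1, (spl j x).2) := fun θ x =>
    Prod.ext (update_self _ _ _) (funext fun k => update_of_ne k.2 _ _)
  have hX := hL.comp (show Sy omega0 omega0 χ from hχ)
  obtain ⟨Y, hY, i1, i2⟩ := hX.inv
  have hc : ∀ g, Commutes χ j g ↔ Eqv ((spl j ∘ χ) ∘ g ∘ Y) := fun g => by
    refine ⟨fun h c hc a w => ?_, fun h θ z w e => (spl j).injective ?_⟩
    · obtain ⟨θ, rfl⟩ := (norm_eq_one_iff c).1 hc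
      refine (congrArg (spl j) (h θ (Y (a, w)) _ ((spl j).injective ?_))).trans (hr _ _)
      rw [hr]
      exact (i2 _).trans (by rw [show spl j (χ (Y (a, w))) = (a, w) from i2 _])
    · have := h _ (norm_exp_ofReal_mul_I θ) (spl j (χ z)).1 (spl j (χ z)).2
      rw [← hr, ← e] at this
      simpa only [comp_apply, show ∀ x, Y (spl j (χ x)) = x from i1, ← hr] using this
  obtain ⟨R, hR, h3⟩ := (hK.image hX.1.continuous).isBounded.subset_closedBall_lt 0 0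
  obtain ⟨Φ, c1, c2, c3, c4, c5, c6⟩ := core (B := B) (fun v => by simp [B]) (by fun_prop)
    (f := fun p => (spl j ∘ χ) ∘ φ p ∘ Y) (hX.1.comp (hφ.comp
      (contDiff_fst.prodMk (hY.1.comp contDiff_snd))))
    (fun p => hX.comp ((show Sy omega0 omega0 _ from (h1 p).1).comp hY))
    (fun p => (hc _).1 (h1 p).2) hR.le fun p z hz => by
      rw [comp_apply (f := spl j ∘ χ), comp_apply (f := φ p), h2 p _ fun e => ?_, i2]
      exact hz.not_ge (by simpa using h3 ⟨_, e, i2 z⟩)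
  have e : ∀ g : ℂ × ({k // k ≠ j} → ℂ) → _, (spl j ∘ χ) ∘ (Y ∘ g ∘ spl j ∘ χ) ∘ Y = g :=
    fun g => funext fun z => (i2 _).trans (congrArg g (i2 z))
  refine ⟨fun t p => Y ∘ Φ t p ∘ spl j ∘ χ, hY.1.comp (c1.comp (contDiff_fst.prodMk
    (contDiff_snd.fst.prodMk (hX.1.comp contDiff_snd.snd)))), fun p => by simp only [c2]; exact i1.id,
    funext fun p => funext fun z => by simp only [c3]; exact (i1 _).trans (congrArg _ (i1 z)),
    fun t p => ⟨hY.comp ((c4 t p).1.comp hX), (hc _).2 (by rw [e]; exact (c4 t p).2)⟩,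
    fun t p h => by simp only [c5 t p (by rw [h]; exact i2.id)]; exact i1.id,
    _, (isCompact_closedBall 0 R).image hY.1.continuous, fun t p z hz => ?_⟩
  exact (congrArg Y (c6 t p _ (not_le.1 fun h => hz ⟨_, by simpa using h, i1 z⟩))).trans (i1 z)

end Pool.Agent.MP_630a92_gt
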