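import Pool.Agent.MP_630a92_gt.Whit

/-! The shift operator on circle-equivariant maps of `ℂ × W`. -/

namespace Pool.Agent.MP_630a92_gt

open Set Filter Topology Complex Function
open scoped ContDiff

variable {W : Type} [NormedAddCommGroup W] [NormedSpace ℝ W] {g h : ℂ × W → ℂ × W} {t : ℝ}

/-- Equivariance under rotations of the first factor. -/
def Eqv (g : ℂ × W → ℂ × W) : Prop :=
  ∀ c : ℂ, ‖c‖ = 1 → ∀ a w, g (c * a, w) = (c * (g (a, w)).1, (g (a, w)).2)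

/-- Preservation of the modulus of the first coordinate. -/
def Nrm (g : ℂ × W → ℂ × W) : Prop := ∀ z, ‖(g z).1‖ = ‖z.1‖

/-- The shifted radius. -/
noncomputable def rho (t : ℝ) (a : ℂ) : ℝ := √(normSq a + t)

/-- The shift operator. -/
noncomputable def sh (g : ℂ × W → ℂ × W) (t : ℝ) (z : ℂ × W) : ℂ × W :=
  ((g (rho t z.1, z.2)).1 / rho t z.1 * z.1, (g (rho t z.1, z.2)).2)

theorem norm_le_rho (ht : 0 ≤ t) (a : ℂ) : ‖a‖ ≤ rho t a :=
  Real.le_sqrt_of_sq_le (by rw [normSq_eq_norm_sq]; linarith)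

theorem rho_zero (ht : 0 ≤ t) {a : ℂ} (h : (rho t a : ℂ) = 0) : a = 0 :=
  norm_le_zero_iff.1 ((norm_le_rho ht a).trans (ofReal_eq_zero.1 h).le)

theorem norm_rho (t : ℝ) (a : ℂ) : ‖(rho t a : ℂ)‖ = rho t a := by
  rw [norm_real]
  exact Real.norm_of_nonneg (Real.sqrt_nonneg _)

theorem rho_congr {a b : ℂ} (h : ‖a‖ = ‖b‖) : rho t a = rho t b := by
  simp [rho, normSq_eq_norm_sq, h]

omit [NormedAddCommGroup W] [NormedSpace ℝ W] in
theorem unit_sh (hn : Nrm g) {a : ℂ} (h0 : (rho t a : ℂ) ≠ 0) (w : W) :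
    ‖(g (rho t a, w)).1 / rho t a‖ = 1 := by
  rw [norm_div, hn, div_self (norm_ne_zero_iff.2 h0)]

omit [NormedAddCommGroup W] [NormedSpace ℝ W] in
theorem sh_nrm (hn : Nrm g) (ht : 0 ≤ t) : Nrm (sh g t) := fun z => by
  rcases eq_or_ne (rho t z.1 : ℂ) 0 with h0 | h0
  · simp [sh, rho_zero ht h0]
  · simp only [sh, norm_mul, unit_sh hn h0, one_mul]

omit [NormedAddCommGroup W] [NormedSpace ℝ W] in
theorem sh_eqv (g : ℂ × W → ℂ × W) (t : ℝ) : Eqv (sh g t) := fun c hc a w => by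
  have : rho t (c * a) = rho t a := rho_congr (by simp [hc])
  simp only [sh, this, mul_left_comm c]

omit [NormedAddCommGroup W] [NormedSpace ℝ W] in
theorem sh_zero (he : Eqv g) (hn : Nrm g) : sh g 0 = g := by
  funext ⟨a, w⟩
  have h1 : rho 0 a = ‖a‖ := by simp [rho, normSq_eq_norm_sq]
  rcases eq_or_ne a 0 with rfl | h0
  · have := hn (0, w)
    simp only [norm_zero, norm_eq_zero] at this
    simp [sh, h1, Prod.ext_iff, this]
  · have h2 : (‖a‖ : ℂ) ≠ 0 := by simpa using h0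
    have := he (a / ‖a‖) (by simp [h0]) ‖a‖ w
    rw [div_mul_cancel₀ _ h2] at this
    rw [this, sh, h1]
    congr 1
    ring

omit [NormedAddCommGroup W] [NormedSpace ℝ W] in
theorem sh_id (ht : 0 ≤ t) {z : ℂ × W} (h : g (rho t z.1, z.2) = (↑(rho t z.1), z.2)) :
    sh g t z = z := by
  rcases eq_or_ne (rho t z.1 : ℂ) 0 with h0 | h0
  · rw [sh, h]
    simp [Prod.ext_iff, rho_zero ht h0]
  · simp [sh, h, h0]

omit [NormedAddCommGroup W] [NormedSpace ℝ W] in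
theorem sh_inv (ht : 0 ≤ t) (hi : LeftInverse h g) (he : Eqv h) (hn : Nrm g) :
    LeftInverse (sh h t) (sh g t) := by
  rintro ⟨a, w⟩
  have h1 : rho t (sh g t (a, w)).1 = rho t a := rho_congr (sh_nrm hn ht _)
  rw [sh, h1]
  have h2 := hi (rho t a, w)
  rcases eq_or_ne (rho t a : ℂ) 0 with h0 | h0
  · have h3 := hn (rho t a, w)
    simp only [h0, norm_zero, norm_eq_zero] at h3 h2
    rw [show g (0, w) = (0, (g (0, w)).2) from Prod.ext h3 rfl] at h2
    simp only [sh, h0, h2]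
    simp [rho_zero ht h0]
  · have h3 := he _ (unit_sh hn h0 w) (rho t a) (g (rho t a, w)).2
    rw [div_mul_cancel₀ _ h0, h2, Prod.ext_iff] at h3
    refine Prod.ext ?_ h3.2.symm
    have h4 := h3.1
    simp only [sh] at h4 ⊢
    field_simp at h4 ⊢
    linear_combination (-a) * h4

theorem sh_smooth [CompleteSpace W] {P Q : Type} [NormedAddCommGroup P] [NormedSpace ℝ P]
    [NormedAddCommGroup Q] [NormedSpace ℝ Q] {f : P → ℂ × W → ℂ × W}
    (hf : ContDiff ℝ ∞ fun q : P × ℂ × W => f q.1 q.2) (he : ∀ p, Eqv (f p)) {τ : Q → ℝ}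
    (hτ : ContDiff ℝ ∞ τ) (h0 : ∀ q, 0 ≤ τ q) {x : Q → P} (hx : ContDiff ℝ ∞ x) {y : Q → ℂ × W}
    (hy : ContDiff ℝ ∞ y) : ContDiff ℝ ∞ fun q => sh (f (x q)) (τ q) (y q) := by
  have h1 : ContDiff ℝ ∞ fun q : ℝ × P × W => f q.2.1 (q.1, q.2.2) :=
    hf.comp (f := fun q : ℝ × P × W => (q.2.1, (q.1 : ℂ), q.2.2))
      (contDiff_snd.fst.prodMk ((ofRealCLM.contDiff.comp contDiff_fst).prodMk contDiff_snd.snd))
  have h2 : ∀ (s : ℝ) p w, f p (((-s : ℝ) : ℂ), w) = (-(f p (s, w)).1, (f p (s, w)).2) :=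
    fun s p w => by simpa using he p (-1) (by simp) s w
  obtain ⟨H, hH, h3, h4⟩ := hadamard h1.fst fun s w => by simp only [h2]
  have h5 := (whitney (hH.prodMk h1.snd) fun s w => by simp only [h2, h4]).comp_contDiff
    (f := fun q => (normSq (y q).1 + τ q, x q, (y q).2))
    ((ContDiff.add (by simp only [normSq_eq_norm_sq]; exact hy.fst.norm_sq ℂ) hτ).prodMk
      (hx.prodMk hy.snd)) fun q => ⟨add_nonneg (normSq_nonneg _) (h0 q), trivial⟩
  convert (h5.fst.mul hy.fst).prodMk h5.snd using 2 with q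
  refine Prod.ext ?_ rfl
  change (f (x q) (rho (τ q) (y q).1, (y q).2)).1 / rho (τ q) (y q).1 * (y q).1 =
    H (rho (τ q) (y q).1, x q, (y q).2) * (y q).1
  rcases eq_or_ne (rho (τ q) (y q).1 : ℂ) 0 with e | e
  · simp [rho_zero (h0 q) e]
  · rw [h3 (rho (τ q) (y q).1) (x q, (y q).2), real_smul, mul_div_cancel_left₀ _ e]

end Pool.Agent.MP_630a92_gt
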