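import Pool.Agent.MP_630a92_gt.Shift

/-! The shift operator preserves symplectomorphisms. -/

namespace Pool.Agent.MP_630a92_gt

open Set Filter Topology Complex Function
open scoped ContDiff

variable {W : Type} [NormedAddCommGroup W] [NormedSpace ℝ W] {g : ℂ × W → ℂ × W} {t : ℝ}
  {B : W → W → ℝ}

/-- The area form of `ℂ` plus a form on `W`. -/
def om (B : W → W → ℝ) (u v : ℂ × W) : ℝ := u.1.re * v.1.im - u.1.im * v.1.re + B u.2 v.2

/-- The derivative of `g` at `z` preserves `om B`. -/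
def SyAt (B : W → W → ℝ) (g : ℂ × W → ℂ × W) (z : ℂ × W) : Prop :=
  ∀ u v, om B (fderiv ℝ g z u) (fderiv ℝ g z v) = om B u v

theorem hasFDerivAt_normSq {E : Type} [NormedAddCommGroup E] [NormedSpace ℝ E] {f : E → ℂ}
    {f' : E →L[ℝ] ℂ} {x : E} (h : HasFDerivAt f f' x) : ∃ L : E →L[ℝ] ℝ,
    HasFDerivAt (fun y => normSq (f y)) L x ∧
      ∀ v, L v = 2 * ((f x).re * (f' v).re + (f x).im * (f' v).im) := by
  have h1 := reCLM.hasFDerivAt.comp x h
  have h2 := imCLM.hasFDerivAt.comp x h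
  refine ⟨_, (h1.mul h1).add (h2.mul h2), fun v => ?_⟩
  simp
  ring

theorem nrm_of (hB : ∀ v, B 0 v = 0) (hg : Differentiable ℝ g) (he : Eqv g) (hs : ∀ z, SyAt B g z)
    {z₀ : ℂ × W} (h0 : g z₀ = z₀) : Nrm g := by
  have h1 : ∀ z : ℂ × W, fderiv ℝ g z (I * z.1, 0) = (I * (g z).1, 0) := by
    rintro ⟨a, w⟩
    have e : ∀ b : ℂ, HasDerivAt (fun θ : ℝ => exp (θ * I) * b) (I * b) 0 := fun b => by
      simpa using (((hasDerivAt_id (0 : ℝ)).ofReal_comp.mul_const I).cexp).mul_const b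
    have h2 := (hg _).hasFDerivAt.comp_hasDerivAt (0 : ℝ) ((e a).prodMk (hasDerivAt_const _ w))
    have h3 := (e (g (a, w)).1).prodMk (hasDerivAt_const (0 : ℝ) (g (a, w)).2)
    simp only [comp_def, he _ (norm_exp_ofReal_mul_I _)] at h2
    simpa using h2.unique h3
  have h2 : ∀ z, HasFDerivAt (fun z => normSq (g z).1 - normSq z.1) (0 : ℂ × W →L[ℝ] ℝ) z := by
    intro z
    obtain ⟨L, h3, h4⟩ := hasFDerivAt_normSq (hg z).hasFDerivAt.fst
    obtain ⟨M, h5, h6⟩ := hasFDerivAt_normSq (hasFDerivAt_fst (𝕜 := ℝ) (p := z))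
    refine (h3.sub h5).congr_fderiv (ContinuousLinearMap.ext fun v => ?_)
    have h7 := hs z (I * z.1, 0) v
    rw [h1] at h7
    simp [om, hB] at h7
    simp [h4, h6]
    linarith
  intro z
  have h3 := is_const_of_fderiv_eq_zero (fun z => (h2 z).differentiableAt)
    (fun z => (h2 z).fderiv) z z₀
  rw [h0, sub_self, sub_eq_zero, normSq_eq_norm_sq, normSq_eq_norm_sq] at h3
  exact (pow_left_inj₀ (norm_nonneg _) (norm_nonneg _) two_ne_zero).1 h3

/-- The radial stretch. -/
noncomputable def jm (t : ℝ) (z : ℂ × W) : ℂ × W := (√(1 + t / normSq z.1) • z.1, z.2)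

theorem jm_symp (ht : 0 ≤ t) {z : ℂ × W} (hz : z.1 ≠ 0) :
    DifferentiableAt ℝ (jm t) z ∧ SyAt B (jm t) z := by
  obtain ⟨L, h1, h2⟩ := hasFDerivAt_normSq (hasFDerivAt_fst (𝕜 := ℝ) (p := z))
  have hu := normSq_pos.2 hz
  have h3 : DifferentiableAt ℝ (fun y : ℂ × W => √(1 + t / normSq y.1)) z :=
    (((h1.differentiableAt.inv hu.ne').const_mul t).const_add 1).sqrt
      (show 1 + t * (normSq z.1)⁻¹ ≠ 0 by positivity)
  have h4 := (h3.hasFDerivAt.smul (hasFDerivAt_fst (𝕜 := ℝ) (p := z))).prodMk hasFDerivAt_snd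
  have h5 := (((h3.hasFDerivAt.mul h3.hasFDerivAt).mul h1).sub h1).unique
    ((hasFDerivAt_const t z).congr_of_eventuallyEq (by
      filter_upwards [continuous_fst.continuousAt.eventually_ne hz] with y hy
      have := normSq_pos.2 hy
      simp only [Pi.mul_apply, Pi.sub_apply]
      rw [Real.mul_self_sqrt (by positivity)]
      field_simp
      ring))
  refine ⟨h4.differentiableAt, fun u v => ?_⟩
  have h6 := congr($h5 u)
  have h7 := congr($h5 v)
  rw [show fderiv ℝ (jm t) z = _ from h4.fderiv]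
  generalize fderiv ℝ (fun y : ℂ × W => √(1 + t / normSq y.1)) z = M at *
  simp [om, h2] at h6 h7 ⊢
  generalize √(1 + t / normSq z.1) = k at *
  rw [normSq_apply] at *
  refine mul_left_cancel₀ hu.ne' ?_
  linear_combination (u.1.re * z.1.im - u.1.im * z.1.re) / 2 * h7 +
    (z.1.re * v.1.im - z.1.im * v.1.re) / 2 * h6

omit [NormedAddCommGroup W] [NormedSpace ℝ W] in
theorem jm_sh (ht : 0 ≤ t) (he : Eqv g) (hn : Nrm g) {z : ℂ × W} (hz : z.1 ≠ 0) :
    jm t (sh g t z) = g (jm t z) := by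
  have hu := normSq_pos.2 hz
  have h0 : (rho t z.1 : ℂ) ≠ 0 := fun e => hz (rho_zero ht e)
  have h1 : ‖√(1 + t / normSq z.1) • z.1‖ = rho t z.1 := by
    rw [norm_smul, Real.norm_of_nonneg (Real.sqrt_nonneg _), norm_def, rho,
      ← Real.sqrt_mul (by positivity)]
    congr 1
    field_simp
  have h2 := he (√(1 + t / normSq z.1) • z.1 / rho t z.1)
    (by rw [norm_div, h1, norm_rho, div_self (by simpa using h0)]) (rho t z.1) z.2
  rw [div_mul_cancel₀ _ h0] at h2
  rw [jm, jm, h2, normSq_eq_norm_sq (sh g t z).1, sh_nrm hn ht, ← normSq_eq_norm_sq]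
  refine Prod.ext ?_ rfl
  simp only [sh, real_smul]
  ring

theorem sh_symp (hB : Continuous (uncurry B)) (ht : 0 ≤ t) (he : Eqv g) (hn : Nrm g)
    (hg : Differentiable ℝ g) (hs : ∀ z, SyAt B g z) (hh : ContDiff ℝ ∞ (sh g t)) (z : ℂ × W) :
    SyAt B (sh g t) z := by
  intro u v
  have hc := hh.continuous_fderiv (by simp)
  have hd : Dense {z : ℂ × W | z.1 ≠ 0} :=
    (dense_compl_singleton (0 : ℂ)).preimage isOpenMap_fst
  refine congrFun (Continuous.ext_on hd (f := fun z => om B (fderiv ℝ (sh g t) z u)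
    (fderiv ℝ (sh g t) z v)) (g := fun _ => om B u v) ?_ continuous_const fun z hz => ?_) z
  · have c1 := hc.clm_apply (continuous_const (y := u))
    have c2 := hc.clm_apply (continuous_const (y := v))
    exact .add (by fun_prop) (hB.comp (c1.snd.prodMk c2.snd))
  · have h1 : (sh g t z).1 ≠ 0 := by rwa [← norm_ne_zero_iff, sh_nrm hn ht, norm_ne_zero_iff]
    have h2 := jm_symp (B := B) ht h1
    have h3 := jm_symp (B := B) ht hz
    have h4 := (h2.1.hasFDerivAt.comp z (hh.differentiable (by simp) z).hasFDerivAt).unique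
      (((hg _).hasFDerivAt.comp z h3.1.hasFDerivAt).congr_of_eventuallyEq (by
        filter_upwards [continuous_fst.continuousAt.eventually_ne hz] with y hy
        exact jm_sh ht he hn hy))
    have h5 := congr($h4 u)
    have h6 := congr($h4 v)
    simp only [ContinuousLinearMap.comp_apply] at h5 h6
    simp only
    rw [← h2.2, h5, h6, hs, h3.2]

end Pool.Agent.MP_630a92_gt
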