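import Pool.Agent.MP_2fc7fa_gt.Sm

/-! Hadamard's lemma and Whitney's theorem on even functions, jointly smooth in parameters. -/

namespace Pool.Agent.MP_630a92_gt

open Set Filter Topology ContinuousLinearMap
open scoped ContDiff
open Pool.Agent.MP_2fc7fa_gt

variable {W : Type} [NormedAddCommGroup W] [NormedSpace ℝ W]

theorem hadamard {E : Type} [NormedAddCommGroup E] [NormedSpace ℝ E] [CompleteSpace E]
    {F : ℝ × W → E} (hF : ContDiff ℝ ∞ F) (ho : ∀ s w, F (-s, w) = -F (s, w)) :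
    ∃ H : ℝ × W → E, ContDiff ℝ ∞ H ∧ (∀ s w, F (s, w) = s • H (s, w)) ∧
      ∀ s w, H (-s, w) = H (s, w) := by
  have h1 : ContDiff ℝ ∞ fun p => fderiv ℝ F p (1, 0) :=
    (contDiff_infty_iff_fderiv.1 hF).2.clm_apply contDiff_const
  have h2 : ContDiff ℝ ∞ fun p : ℝ × W => ∫ t in (0 : ℝ)..1, fderiv ℝ F (t • p.1, p.2) (1, 0) :=
    contDiffOn_univ.1 (Sm.contDiffOn (P := Unit) (fun n => Fam.integral convex_univ
      ((((sm_const continuous_snd).smul (sm_of_contDiff contDiff_fst)).prod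
        (sm_of_contDiff contDiff_snd)).post' h1 n)) uniqueDiffOn_univ ())
  have h3 : ∀ s w, F (s, w) = s • ∫ t in (0 : ℝ)..1, fderiv ℝ F (t • s, w) (1, 0) := by
    intro s w
    have h0 : F (0, w) = 0 := by
      have := ho 0 w
      rw [neg_zero, eq_neg_iff_add_eq_zero, ← two_smul ℝ, smul_eq_zero] at this
      exact this.resolve_left two_ne_zero
    have c : Continuous fun t : ℝ => fderiv ℝ F (t • s, w) (1, 0) :=
      h1.continuous.comp (by fun_prop)
    have h4 := intervalIntegral.integral_eq_sub_of_hasDerivAt (f := fun t : ℝ => F (t • s, w))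
      (f' := fun t => s • fderiv ℝ F (t • s, w) (1, 0)) (a := 0) (b := 1) (fun t _ => by
        have := (hF.differentiable (by simp) (t • s, w)).hasFDerivAt.comp_hasDerivAt t
          (((hasDerivAt_id' t).smul_const s).prodMk (hasDerivAt_const t w))
        rw [← map_smul]
        simpa [Function.comp_def] using this) ((c.const_smul s).intervalIntegrable _ _)
    rw [intervalIntegral.integral_smul] at h4
    rw [h4]
    simp [h0]
  refine ⟨_, h2, h3, fun s w => ?_⟩
  rcases eq_or_ne s 0 with rfl | hs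
  · rw [neg_zero]
  · have h5 := ho s w
    rw [h3, h3 s, neg_smul, neg_inj] at h5
    exact smul_right_injective E hs h5

theorem whitney_nat (n : ℕ) : ∀ {E : Type} [NormedAddCommGroup E] [NormedSpace ℝ E]
    [CompleteSpace E] {F : ℝ × W → E}, ContDiff ℝ ∞ F → (∀ s w, F (-s, w) = F (s, w)) →
    ContDiffOn ℝ n (fun p : ℝ × W => F (√p.1, p.2)) (Ici 0 ×ˢ univ) := by
  induction n with
  | zero =>
    intro E _ _ _ F hF _
    exact contDiffOn_zero.2 (hF.continuous.comp (by fun_prop)).continuousOn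
  | succ n ih =>
    intro E _ _ _ F hF he
    have h1 : ContDiff ℝ ∞ (fderiv ℝ F) := (contDiff_infty_iff_fderiv.1 hF).2
    have hd := hF.differentiable (by simp)
    have hs : ∀ s w a b, fderiv ℝ F (-s, w) (-a, b) = fderiv ℝ F (s, w) (a, b) := by
      intro s w a b
      have h2 := (hd (-s, w)).hasFDerivAt.comp (s, w)
        (((-fst ℝ ℝ W).prod (snd ℝ ℝ W)).hasFDerivAt (x := (s, w)))
      have h3 : F ∘ ((-fst ℝ ℝ W).prod (snd ℝ ℝ W)) = F := funext fun p => he p.1 p.2
      rw [h3] at h2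
      rw [h2.fderiv]
      rfl
    obtain ⟨H, hH, h2, h3⟩ := hadamard (h1.clm_apply (contDiff_const (c := ((1 : ℝ), (0 : W)))))
      fun s w => by rw [← hs s w 1 0, ← map_neg]; simp
    let D : ℝ × W → ℝ × W →L[ℝ] E := fun p => (fderiv ℝ F p).comp ((inr ℝ ℝ W).comp (snd ℝ ℝ W)) +
      (fst ℝ ℝ W).smulRight ((1 / 2 : ℝ) • H p)
    have hD : ContDiff ℝ ∞ D := (h1.clm_comp contDiff_const).add
      (contDiff_const.smulRight (hH.const_smul _))
    have h4 : ∀ p ∈ Ioi (0 : ℝ) ×ˢ (univ : Set W),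
        HasFDerivAt (fun p : ℝ × W => F (√p.1, p.2)) (D (√p.1, p.2)) p := by
      intro p hp
      have h5 : √p.1 ≠ 0 := (Real.sqrt_pos.2 hp.1).ne'
      refine ((hd (√p.1, p.2)).hasFDerivAt.comp p (((hasFDerivAt_fst (𝕜 := ℝ) (p := p)).sqrt
        hp.1.ne').prodMk hasFDerivAt_snd)).congr_fderiv (ContinuousLinearMap.ext fun v => .symm ?_)
      have h6 : (((1 / (2 * √p.1)) * v.1, v.2) : ℝ × W) =
          (0, v.2) + ((1 / (2 * √p.1)) * v.1) • ((1 : ℝ), (0 : W)) := by simp
      change fderiv ℝ F (√p.1, p.2) (0, v.2) + v.1 • (1 / 2 : ℝ) • H (√p.1, p.2) =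
        fderiv ℝ F (√p.1, p.2) ((1 / (2 * √p.1)) * v.1, v.2)
      rw [h6, map_add, map_smul, h2, smul_smul, smul_smul]
      congr 2
      field_simp
    have hc : closure (Ioi (0 : ℝ) ×ˢ (univ : Set W)) = Ici 0 ×ˢ univ := by
      rw [closure_prod_eq, closure_Ioi, closure_univ]
    refine (contDiffOn_succ_iff_hasFDerivWithinAt_of_uniqueDiffOn
      ((uniqueDiffOn_Ici 0).prod uniqueDiffOn_univ)).2 ⟨by simp, _, ih hD fun s w => ?_,
        fun p _ => ?_⟩
    · refine ContinuousLinearMap.ext fun v => ?_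
      change fderiv ℝ F (-s, w) (0, v.2) + v.1 • (1 / 2 : ℝ) • H (-s, w) =
        fderiv ℝ F (s, w) (0, v.2) + v.1 • (1 / 2 : ℝ) • H (s, w)
      rw [h3, ← hs s w 0, neg_zero]
    · rw [← hc]
      refine hasFDerivWithinAt_closure_of_tendsto_fderiv
        (fun y hy => (h4 y hy).differentiableAt.differentiableWithinAt)
        ((convex_Ioi 0).prod convex_univ) (isOpen_Ioi.prod isOpen_univ)
        (fun y _ => (hF.continuous.comp (by fun_prop)).continuousWithinAt) ?_
      refine Tendsto.congr' ?_ ((hD.continuous.comp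
        (f := fun p : ℝ × W => (√p.1, p.2)) (by fun_prop)).continuousWithinAt)
      filter_upwards [self_mem_nhdsWithin] with y hy using (h4 y hy).fderiv.symm

theorem whitney {E : Type} [NormedAddCommGroup E] [NormedSpace ℝ E] [CompleteSpace E]
    {F : ℝ × W → E} (hF : ContDiff ℝ ∞ F) (he : ∀ s w, F (-s, w) = F (s, w)) :
    ContDiffOn ℝ ∞ (fun p : ℝ × W => F (√p.1, p.2)) (Ici 0 ×ˢ univ) :=
  contDiffOn_infty.2 fun n => whitney_nat n hF he

end Pool.Agent.MP_630a92_gt
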